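import Pool.Agent.H948.HS.Stm

/-!
# Measurability and locality of the hyperbolic walk
-/

set_option autoImplicit false

namespace Pool.Agent.H282.HS.HM

open MeasureTheory ProbabilityTheory Set Filter Metric
open scoped ENNReal NNReal Topology RealInnerProductSpace
open Pool.Agent.H948.HS

variable {m : ℕ}

theorem measurable_inc (ε : ℝ) : Measurable (fun x : E m => inc ε x) := by
  unfold inc
  have h0 : Measurable fun x : E m => x 0 := measurable_coord 0
  have h1 : Measurable fun x : E m =>
      (WithLp.toLp 2 fun i : Fin m => x i.succ : EuclideanSpace ℝ (Fin m)) := by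
    refine (PiLp.continuous_toLp 2 _).measurable.comp ?_
    exact measurable_pi_iff.2 fun i => measurable_coord i.succ
  refine Measurable.prodMk ?_ ?_
  · exact (measurable_const.div (measurable_const.sub (measurable_const.mul h0))).smul h1
  · exact measurable_const.div (measurable_const.sub (measurable_const.mul h0))

theorem measurable_X (ε : ℝ) (n : ℕ) : Measurable (fun u : Om m => X ε u n) := by
  induction n with
  | zero => exact measurable_const
  | succ n ih =>
    have h1 : Measurable (fun u : Om m => inc ε (u n : E m)) :=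
      (measurable_inc ε).comp (measurable_subtype_coe.comp (measurable_pi_apply n))
    change Measurable (fun u : Om m => act (X ε u n) (inc ε (u n : E m)))
    unfold act
    exact Measurable.prodMk (ih.fst.add (ih.snd.smul h1.fst)) (ih.snd.mul h1.snd)

theorem measurable_arcosh : Measurable Real.arcosh := by
  have e : Real.arcosh = fun x => Real.log (x + √(x ^ 2 - 1)) := rfl
  rw [e]
  exact Real.measurable_log.comp (measurable_id.add
    (((measurable_id.pow_const 2).sub_const 1).sqrt))

theorem measurable_Dn (ε : ℝ) (n : ℕ) : Measurable (fun u : Om m => Dn ε u n) := by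
  unfold Dn hdist
  have hX := measurable_X (m := m) ε n
  refine Measurable.div_const (measurable_arcosh.comp ?_) _
  refine measurable_const.add (Measurable.div ?_ (measurable_const.mul hX.snd))
  refine Measurable.add ?_ ?_
  · exact ((measurable_const.sub hX.fst).norm).pow_const 2
  · exact (measurable_const.sub hX.snd).pow_const 2

theorem measurable_Hn (ε : ℝ) (n : ℕ) : Measurable (fun u : Om m => Hn ε u n) := by
  unfold Hn
  exact (Real.measurable_log.comp (measurable_X ε n).snd).div_const _

theorem X_congr (ε : ℝ) {u v : Om m} (n : ℕ) (h : ∀ i < n, u i = v i) : X ε u n = X ε v n := by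
  induction n with
  | zero => rfl
  | succ n ih =>
    change act (X ε u n) (inc ε (u n : E m)) = act (X ε v n) (inc ε (v n : E m))
    rw [ih fun i hi => h i (Nat.lt_succ_of_lt hi), h n (Nat.lt_succ_self n)]

theorem Dn_congr (ε : ℝ) {u v : Om m} (n : ℕ) (h : ∀ i < n, u i = v i) : Dn ε u n = Dn ε v n := by
  unfold Dn
  rw [X_congr ε n h]

theorem Hn_congr (ε : ℝ) {u v : Om m} (n : ℕ) (h : ∀ i < n, u i = v i) : Hn ε u n = Hn ε v n := by
  unfold Hn
  rw [X_congr ε n h]

theorem meas_HSaw (ε c : ℝ) (n : ℕ) : MeasurableSet (HSaw m ε c n) := by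
  unfold HSaw
  refine meas_all fun i => meas_all fun j => meas_all fun _ => meas_all fun _ => ?_
  exact measurableSet_lt measurable_const ((measurable_Dn ε (j - i)).comp (measurable_shift i))

theorem loc_HSaw (ε c : ℝ) (n : ℕ) : Loc n (HSaw m ε c n) := by
  intro u v h
  have key : ∀ i j, j ≤ n → Dn ε (shift i u) (j - i) = Dn ε (shift i v) (j - i) := by
    intro i j hj
    refine Dn_congr ε _ fun k hk => ?_
    unfold shift
    exact h (i + k) (by omega)
  constructor
  · intro hu i j hij hj
    rw [← key i j hj]
    exact hu i j hij hj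
  · intro hu i j hij hj
    rw [key i j hj]
    exact hu i j hij hj

theorem s_hm : S_HM := by
  intro m ε c a n
  refine ⟨measurable_Dn ε n, measurable_Hn ε n, fun u v h => ⟨Dn_congr ε n h, Hn_congr ε n h⟩,
    ⟨meas_HSaw ε c n, loc_HSaw ε c n⟩, ⟨?_, ?_⟩, ?_, ?_⟩
  · unfold HBr
    refine (meas_HSaw ε c n).inter (MeasurableSet.inter ?_ ?_)
    · refine meas_all fun j => meas_all fun _ => meas_all fun _ => ?_
      exact measurableSet_lt measurable_const (measurable_Hn ε j)
    · refine meas_all fun j => meas_all fun _ => ?_
      exact measurableSet_lt (measurable_Hn ε j) (measurable_Hn ε n)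
  · refine loc_and (loc_HSaw ε c n) ?_
    rintro u v h ⟨h1, h2⟩
    refine ⟨fun j h0 hj => ?_, fun j hj => ?_⟩
    · rw [← Hn_congr ε j fun i hi => h i (lt_of_lt_of_le hi hj)]
      exact h1 j h0 hj
    · rw [← Hn_congr ε j fun i hi => h i (lt_trans hi hj), ← Hn_congr ε n h]
      exact h2 j hj
  · unfold HFar
    exact (meas_HSaw ε c n).inter (measurableSet_le measurable_const (measurable_Dn ε n))
  · refine loc_and (loc_HSaw ε c n) ?_
    intro u v h h1
    rw [← Dn_congr ε n h]
    exact h1

end Pool.Agent.H282.HS.HM
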